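import Mathlib

/-!
# MP_d5a1e1_nt: a lower bound for the representation function of bases with many multipliers

`r A h n` is the number of representations of `n` as a sum of `h` elements of `A`, the order of the
summands being disregarded.  A multiplier of `A` is an integer `m` with `m A ⊆ A`.

Let `B` be a set of positive integers which is an asymptotic basis of order `h ≥ 2` and which is
contained in the union of `l` dilates `q · mult B` of its set of multipliers (for instance `l = 1` if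
`B` is closed under multiplication), and let `A ⊇ B`.  Then for all large `X`
`max_{n ≤ X} r A h n ≥ √(log X / (4 l h log (4 h)))`.

That `r B h` is unbounded is a starting result (MP_12a1af_nt, `MultiplicativeBases`); its proof,
which looks at the denominators of the ratios below, gives no rate.

Method.  Let `c_1, …, c_m ∈ B ∩ q · mult B` and write `c_i` as a sum of `h` elements `u` of `B`.
Multiplying by the multipliers of the other `c_j` we obtain a representation of
`N = q ∏ (c_j / q)`, and two of these coincide only if the multisets of the ratios `u / c_i`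
coincide.  If `r` is small there are therefore few multisets of ratios, and every element of `B` is
obtained from a small one by multiplication with the reciprocals of few rational numbers `≤ 1/2`.
The number of products `≤ x` is estimated by Rankin's trick and compared with `x ^ (1/h)`.
-/

set_option autoImplicit false

open Finset Filter

namespace Pool.Agent.Results.MP_d5a1e1_nt.MultiplierBound

/-- The number of unordered representations of `n` as a sum of `h` elements of `A`. -/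
noncomputable def r (A : Set ℕ) (h n : ℕ) : ℕ :=
  Set.ncard {s : Multiset ℕ | Multiset.card s = h ∧ (∀ a ∈ s, a ∈ A) ∧ s.sum = n}

/-- `B` is an asymptotic basis of order `h`. -/
def IsBasis (B : Set ℕ) (h : ℕ) : Prop :=
  ∃ n₀ : ℕ, ∀ n : ℕ, n₀ ≤ n →
    ∃ s : Multiset ℕ, Multiset.card s = h ∧ (∀ a ∈ s, a ∈ B) ∧ s.sum = n

/-- The multipliers of `B`: the integers `m` with `m B ⊆ B`. -/
def mult (B : Set ℕ) : Set ℕ := {m | ∀ b ∈ B, m * b ∈ B}

/-- every multiset of naturals with sum `n` and `h` elements comes from a function to `[0, n]` -/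
theorem exists_fun {h n : ℕ} {s : Multiset ℕ} (hc : Multiset.card s = h) (hs : s.sum = n) :
    ∃ f : Fin h → ℕ, (∀ i, f i ≤ n) ∧ (∀ i, f i ∈ s) ∧ Multiset.ofList (List.ofFn f) = s := by
  obtain ⟨l, rfl⟩ := Quotient.exists_rep s
  have hl : l.length = h := hc
  subst hl
  refine ⟨fun i => l.get i, fun i => ?_, fun i => by simp, ?_⟩
  · have h1 : (l.get i) ∈ (Multiset.ofList l) := by simp
    have h2 := Multiset.single_le_sum (s := Multiset.ofList l) (fun x _ => Nat.zero_le x) _ h1
    have h3 : (Multiset.ofList l).sum = n := hs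
    show l.get i ≤ n
    omega
  · rw [List.ofFn_get]
    rfl

theorem finite_reps (A : Set ℕ) (h n : ℕ) :
    {s : Multiset ℕ | Multiset.card s = h ∧ (∀ a ∈ s, a ∈ A) ∧ s.sum = n}.Finite := by
  have h1 : (Set.range fun f : Fin h → Fin (n + 1) =>
      Multiset.ofList (List.ofFn fun i => (f i : ℕ))).Finite := Set.finite_range _
  refine h1.subset ?_
  rintro s ⟨hc, -, hsum⟩
  obtain ⟨f, hf, -, rfl⟩ := exists_fun hc hsum
  exact ⟨fun i => ⟨f i, Nat.lt_succ_of_le (hf i)⟩, rfl⟩

/-- the multiset of the ratios of a representation of `c` -/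
def ratios (s : Multiset ℕ) (c : ℕ) : Multiset ℚ := s.map fun u : ℕ => (u : ℚ) / c

theorem prod_mem {B : Set ℕ} (m : ℕ → ℕ) (S : Finset ℕ)
    (hS : ∀ c ∈ S, m c ∈ mult B) (u : ℕ) (hu : u ∈ B) : u * ∏ c ∈ S, m c ∈ B := by
  classical
  induction S using Finset.induction_on with
  | empty => simpa using hu
  | insert a S ha ih =>
    rw [prod_insert ha, mul_left_comm]
    exact hS a (mem_insert_self _ _) _ (ih fun c hc => hS c (mem_insert_of_mem hc))

/-- The representations of `q ∏ m c`. -/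
theorem card_le_r {A B : Set ℕ} (hBA : B ⊆ A) (h q : ℕ) (m : ℕ → ℕ) (S : Finset ℕ)
    (hpos : ∀ c ∈ S, 0 < c) (hm : ∀ c ∈ S, m c ∈ mult B ∧ c = q * m c)
    (s : ℕ → Multiset ℕ) (hs : ∀ c ∈ S, Multiset.card (s c) = h ∧ (∀ a ∈ s c, a ∈ B) ∧
      (s c).sum = c) (hinj : Set.InjOn (fun c => ratios (s c) c) S) :
    S.card ≤ r A h (q * ∏ c ∈ S, m c) := by
  classical
  set N := q * ∏ c ∈ S, m c with hN
  let t : ℕ → Multiset ℕ := fun c => (s c).map fun u => u * ∏ d ∈ S.erase c, m d
  have hprod : ∀ c ∈ S, c * ∏ d ∈ S.erase c, m d = N := by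
    intro c hc
    calc c * ∏ d ∈ S.erase c, m d = q * m c * ∏ d ∈ S.erase c, m d := by rw [← (hm c hc).2]
      _ = N := by rw [mul_assoc, mul_prod_erase S m hc]
  have hN0 : ∀ c ∈ S, 0 < N := by
    intro c hc
    have hq : ∀ d ∈ S, 0 < m d := by
      intro d hd
      rcases Nat.eq_zero_or_pos (m d) with h1 | h1
      · have := hpos d hd
        rw [(hm d hd).2, h1] at this
        simp at this
      · exact h1
    rw [← hprod c hc]
    exact Nat.mul_pos (hpos c hc) (Finset.prod_pos fun d hd => hq d (mem_of_mem_erase hd))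
  have ht : ∀ c ∈ S, t c ∈
      {s : Multiset ℕ | Multiset.card s = h ∧ (∀ a ∈ s, a ∈ A) ∧ s.sum = N} := by
    intro c hc
    obtain ⟨h1, h2, h3⟩ := hs c hc
    refine ⟨by simp [t, h1], ?_, ?_⟩
    · intro a ha
      simp only [t, Multiset.mem_map] at ha
      obtain ⟨u, hu, rfl⟩ := ha
      exact hBA (prod_mem m _ (fun d hd => (hm d (mem_of_mem_erase hd)).1) u (h2 u hu))
    · simp only [t]
      rw [Multiset.sum_map_mul_right, Multiset.map_id', h3, hprod c hc]
  have hinj' : Set.InjOn t S := by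
    intro c hc c' hc' he
    apply hinj hc hc'
    have key : ∀ c ∈ S, (t c).map (fun v : ℕ => (v : ℚ) / N) = ratios (s c) c := by
      intro c hc
      simp only [t, ratios, Multiset.map_map]
      apply Multiset.map_congr rfl
      intro u _
      have h1 : (c : ℚ) * ((∏ d ∈ S.erase c, m d : ℕ) : ℚ) = N := by
        exact_mod_cast hprod c hc
      have h2 : (c : ℚ) ≠ 0 := by exact_mod_cast (hpos c hc).ne'
      have h3 : (N : ℚ) ≠ 0 := by exact_mod_cast (hN0 c hc).ne'
      simp only [Function.comp, Nat.cast_mul]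
      rw [div_eq_div_iff h3 h2, ← h1]
      ring
    show ratios (s c) c = ratios (s c') c'
    rw [← key c hc, ← key c' hc', he]
  calc S.card = (S.image t).card := (card_image_of_injOn hinj').symm
    _ = Set.ncard ((S.image t : Finset (Multiset ℕ)) : Set (Multiset ℕ)) :=
        (Set.ncard_coe_finset _).symm
    _ ≤ r A h N := by
        apply Set.ncard_le_ncard _ (finite_reps A h N)
        intro x hx
        simp only [coe_image, Set.mem_image, mem_coe] at hx
        obtain ⟨c, hc, rfl⟩ := hx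
        exact ht c hc

/-- the smallest element of a multiset of rational numbers -/
noncomputable def least (m : Multiset ℚ) : ℚ :=
  open Classical in if h : ∃ q ∈ m, ∀ q' ∈ m, q ≤ q' then h.choose else 0

theorem least_spec {h : ℕ} (hh : 2 ≤ h) {s : Multiset ℕ} {c : ℕ} (hc : 0 < c)
    (hs : Multiset.card s = h) (hsum : s.sum = c) :
    ∃ u ∈ s, least (ratios s c) = (u : ℚ) / c ∧ 2 * u ≤ c := by
  classical
  have hne : s.toFinset.Nonempty := by
    rw [Multiset.toFinset_nonempty]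
    rintro rfl
    simp at hs
    omega
  obtain ⟨u₀, hu₀, hmin⟩ := exists_min_image s.toFinset id hne
  have hcq : (0 : ℚ) < c := by exact_mod_cast hc
  have hex : ∃ q ∈ ratios s c, ∀ q' ∈ ratios s c, q ≤ q' := by
    refine ⟨(u₀ : ℚ) / c, ?_, ?_⟩
    · exact Multiset.mem_map_of_mem _ (Multiset.mem_toFinset.1 hu₀)
    · intro q' hq'
      simp only [ratios, Multiset.mem_map] at hq'
      obtain ⟨v, hv, rfl⟩ := hq'
      have h1 : u₀ ≤ v := hmin v (Multiset.mem_toFinset.2 hv)
      exact div_le_div_of_nonneg_right (by exact_mod_cast h1) hcq.le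
  have hl : least (ratios s c) = hex.choose := dif_pos hex
  obtain ⟨h1, h2⟩ := hex.choose_spec
  rw [← hl] at h1 h2
  have h1' := h1
  simp only [ratios, Multiset.mem_map] at h1'
  obtain ⟨u, hu, hue⟩ := h1'
  refine ⟨u, hu, hue.symm, ?_⟩
  have hle : ∀ v ∈ s, u ≤ v := by
    intro v hv
    have h3 := h2 _ (Multiset.mem_map_of_mem _ hv : (v : ℚ) / c ∈ ratios s c)
    have hue' : (u : ℚ) / c = least (ratios s c) := hue
    rw [← hue', div_le_div_iff_of_pos_right hcq] at h3
    exact_mod_cast h3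
  obtain ⟨s', rfl⟩ := Multiset.exists_cons_of_mem hu
  rw [Multiset.card_cons] at hs
  have hs' : s' ≠ 0 := by
    rintro rfl
    simp at hs
    omega
  obtain ⟨v, hv⟩ := Multiset.exists_mem_of_ne_zero hs'
  have h4 : v ≤ s'.sum := Multiset.single_le_sum (fun x _ => Nat.zero_le x) _ hv
  have h5 : u ≤ v := hle v (Multiset.mem_cons_of_mem hv)
  rw [Multiset.sum_cons] at hsum
  omega

/-- If `f` is injective only on subsets of `T` with at most `k` elements then `f '' T` is finite
with at most `k` elements. -/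
theorem image_small {α β : Type*} (f : α → β) (T : Set α) (k : ℕ)
    (hT : ∀ S : Finset α, (S : Set α) ⊆ T → Set.InjOn f S → S.card ≤ k) :
    (f '' T).Finite ∧ (f '' T).ncard ≤ k := by
  classical
  have key : ∀ F : Finset β, (F : Set β) ⊆ f '' T → F.card ≤ k := by
    intro F hF
    obtain ⟨S, hS1, hS2, hS3⟩ : ∃ S : Finset α, (S : Set α) ⊆ T ∧ Set.InjOn f S ∧
        S.image f = F := by
      induction F using Finset.induction_on with
      | empty => exact ⟨∅, by simp, by simp, by simp⟩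
      | insert y F hy ih =>
        obtain ⟨S, hS1, hS2, hS3⟩ := ih (fun z hz => hF (by simp [hz]))
        obtain ⟨a, ha, hay⟩ := hF (by simp : y ∈ ((insert y F : Finset β) : Set β))
        have haS : ∀ b ∈ S, f b ≠ f a := by
          intro b hb he
          apply hy
          rw [← hS3, ← hay, ← he]
          exact mem_image_of_mem f hb
        refine ⟨insert a S, ?_, ?_, ?_⟩
        · intro b hb
          rw [coe_insert, Set.mem_insert_iff] at hb
          rcases hb with rfl | hb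
          · exact ha
          · exact hS1 hb
        · intro b hb c hc hbc
          rw [coe_insert, Set.mem_insert_iff] at hb hc
          rcases hb with rfl | hb <;> rcases hc with rfl | hc
          · rfl
          · exact absurd hbc.symm (haS c hc)
          · exact absurd hbc (haS b hb)
          · exact hS2 hb hc hbc
        · rw [image_insert, hS3, hay]
    rw [← hS3]
    exact card_image_le.trans (hT S hS1 hS2)
  have hfin : (f '' T).Finite := by
    by_contra hinf
    obtain ⟨F, hF, hcard⟩ := Set.Infinite.exists_subset_card_eq hinf (k + 1)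
    have := key F hF
    omega
  refine ⟨hfin, ?_⟩
  rw [Set.ncard_eq_toFinset_card _ hfin]
  exact key _ (by simp)

/-- every element is a small one times a product of reciprocals of elements of `P` -/
theorem descent (P : Finset ℚ) (B : Set ℕ) (n₀ x : ℕ) (h0 : 0 ∉ B)
    (hB : ∀ c ∈ B, n₀ ≤ c → c ≤ x → ∃ u ∈ B, 2 * u ≤ c ∧ (u : ℚ) / c ∈ P) :
    ∀ b : ℕ, b ∈ B → b ≤ x → ∃ b₀ < n₀, ∃ e : ℚ → ℕ, ∑ q ∈ P, e q ≤ Nat.log 2 b ∧
      (b : ℚ) = b₀ * ∏ q ∈ P, q⁻¹ ^ e q := by
  classical
  intro b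
  induction b using Nat.strong_induction_on with
  | _ b ih =>
    intro hb hbx
    rcases lt_or_ge b n₀ with hlt | hge
    · exact ⟨b, hlt, fun _ => 0, by simp, by simp⟩
    · obtain ⟨u, hu, hub, huP⟩ := hB b hb hge hbx
      have hu0 : 0 < u := Nat.pos_of_ne_zero fun e => h0 (e ▸ hu)
      obtain ⟨b₀, hb₀, e, he, hue⟩ := ih u (by omega) hu (by omega)
      refine ⟨b₀, hb₀, fun q => e q + if q = (u : ℚ) / b then 1 else 0, ?_, ?_⟩
      · rw [sum_add_distrib, sum_ite_eq' P, if_pos huP]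
        have h1 : Nat.log 2 (2 * u) = Nat.log 2 u + 1 := by
          rw [mul_comm]
          exact Nat.log_mul_base (by norm_num) hu0.ne'
        have h2 : Nat.log 2 (2 * u) ≤ Nat.log 2 b := Nat.log_mono_right hub
        omega
      · simp only [pow_add, prod_mul_distrib]
        have h1 : ∏ q ∈ P, q⁻¹ ^ (if q = (u : ℚ) / b then 1 else 0) = ((u : ℚ) / b)⁻¹ := by
          rw [prod_eq_single ((u : ℚ) / b)]
          · simp
          · intro q _ hq
            simp [hq]
          · intro h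
            exact absurd huP h
        rw [h1, ← mul_assoc, ← hue]
        have h2 : (u : ℚ) ≠ 0 := by exact_mod_cast hu0.ne'
        rw [inv_div]
        field_simp

/-- the number of elements of `B` in `[1, x]` -/
theorem card_bound (P : Finset ℚ) (B : Set ℕ) [DecidablePred (· ∈ B)] (n₀ x : ℕ) (h0 : 0 ∉ B)
    (hB : ∀ c ∈ B, n₀ ≤ c → c ≤ x → ∃ u ∈ B, 2 * u ≤ c ∧ (u : ℚ) / c ∈ P)
    (s : ℝ) (hs0 : 0 < s) (hs1 : s < 1) :
    (((range (x + 1)).filter (· ∈ B)).card : ℝ) ≤
      n₀ * ((s⁻¹) ^ Nat.log 2 x * ((1 - s)⁻¹) ^ P.card) := by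
  classical
  set M := Nat.log 2 x with hM
  let F : ℕ × (∀ q ∈ P, ℕ) → ℚ := fun z => z.1 * ∏ q ∈ P.attach, (q.1)⁻¹ ^ z.2 q.1 q.2
  set W := (P.pi fun _ => range (M + 1)).filter fun f => ∑ q ∈ P.attach, f q.1 q.2 ≤ M with hW
  have h1 : (((range (x + 1)).filter (· ∈ B)).image (Nat.cast : ℕ → ℚ)) ⊆
      (range n₀ ×ˢ W).image F := by
    intro y hy
    simp only [mem_image, mem_filter, mem_range] at hy
    obtain ⟨b, ⟨hbx, hb⟩, rfl⟩ := hy
    obtain ⟨b₀, hb₀, e, he, hbe⟩ := descent P B n₀ x h0 hB b hb (by omega)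
    have h3 : Nat.log 2 b ≤ M := Nat.log_mono_right (by omega)
    rw [mem_image]
    refine ⟨(b₀, fun q _ => e q), ?_, ?_⟩
    · rw [mem_product]
      refine ⟨mem_range.2 hb₀, ?_⟩
      rw [hW, mem_filter, Finset.mem_pi]
      refine ⟨?_, ?_⟩
      · intro q hq
        have h2 : e q ≤ ∑ q ∈ P, e q := single_le_sum (f := e) (fun _ _ => Nat.zero_le _) hq
        simp only [mem_range]
        omega
      · show ∑ q ∈ P.attach, e q.1 ≤ M
        rw [sum_attach P e]
        omega
    · show (b₀ : ℚ) * ∏ q ∈ P.attach, (q.1)⁻¹ ^ e q.1 = b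
      rw [prod_attach P (fun q => q⁻¹ ^ e q), ← hbe]
  have h2 := card_le_card h1
  rw [card_image_of_injective _ Nat.cast_injective] at h2
  have h3 := h2.trans card_image_le
  rw [card_product, card_range] at h3
  have h4 : (W.card : ℝ) ≤ (s⁻¹) ^ M * ((1 - s)⁻¹) ^ P.card := by
    have h5 : (W.card : ℝ) * s ^ M ≤ ((1 - s)⁻¹) ^ P.card := by
      calc (W.card : ℝ) * s ^ M = ∑ f ∈ W, s ^ M := by rw [sum_const, nsmul_eq_mul]
        _ ≤ ∑ f ∈ W, ∏ q ∈ P.attach, s ^ f q.1 q.2 := by
            apply sum_le_sum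
            intro f hf
            rw [hW, mem_filter] at hf
            rw [prod_pow_eq_pow_sum]
            exact pow_le_pow_of_le_one hs0.le hs1.le hf.2
        _ ≤ ∑ f ∈ P.pi fun _ => range (M + 1), ∏ q ∈ P.attach, s ^ f q.1 q.2 := by
            apply sum_le_sum_of_subset_of_nonneg (filter_subset _ _)
            intro f _ _
            exact prod_nonneg fun q _ => pow_nonneg hs0.le _
        _ = ∏ q ∈ P, ∑ j ∈ range (M + 1), s ^ j :=
            (Finset.prod_sum P (fun _ => range (M + 1)) (fun _ j => s ^ j)).symm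
        _ ≤ ∏ q ∈ P, (1 - s)⁻¹ := by
            apply Finset.prod_le_prod
            · intro q _
              exact sum_nonneg fun j _ => pow_nonneg hs0.le _
            · intro q _
              have h6 := (hasSum_geometric_of_lt_one hs0.le hs1)
              exact sum_le_hasSum _ (fun j _ => pow_nonneg hs0.le _) h6
        _ = ((1 - s)⁻¹) ^ P.card := by rw [prod_const]
    have h6 : 0 < s ^ M := pow_pos hs0 _
    calc (W.card : ℝ) = (W.card : ℝ) * s ^ M * (s⁻¹) ^ M := by
          rw [inv_pow]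
          field_simp
      _ ≤ ((1 - s)⁻¹) ^ P.card * (s⁻¹) ^ M := by gcongr
      _ = _ := mul_comm _ _
  calc (((range (x + 1)).filter (· ∈ B)).card : ℝ) ≤ ((n₀ * W.card : ℕ) : ℝ) := by
        exact_mod_cast h3
    _ = n₀ * (W.card : ℝ) := by push_cast; ring
    _ ≤ _ := by gcongr

/-- the finite form for one dilate -/
theorem finite_form {A B : Set ℕ} (hBA : B ⊆ A) (h0 : 0 ∉ B) (h : ℕ) (hh : 2 ≤ h)
    (q x : ℕ) (T : Set ℕ) (hTB : ∀ c ∈ T, c ∈ B ∧ c ≤ x ∧ ∃ m ∈ mult B, c = q * m)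
    (hT : ∀ c ∈ T, ∃ s : Multiset ℕ, Multiset.card s = h ∧ (∀ a ∈ s, a ∈ B) ∧ s.sum = c)
    (k : ℕ) (hr : ∀ N : ℕ, N ≤ x ^ (k + 1) → r A h N ≤ k) :
    ∃ P : Finset ℚ, P.card ≤ k ∧ ∀ c ∈ T, ∃ u ∈ B, 2 * u ≤ c ∧ (u : ℚ) / c ∈ P := by
  classical
  choose! s hs using hT
  choose! m hm using fun c hc => (hTB c hc).2.2
  have hpos : ∀ c ∈ T, 0 < c := fun c hc =>
    Nat.pos_of_ne_zero fun e => h0 (e ▸ (hTB c hc).1)
  have hmpos : ∀ c ∈ T, 0 < m c ∧ m c ≤ x ∧ 0 < q := by
    intro c hc
    have h1 := hpos c hc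
    have h2 := (hm c hc).2
    have h3 := (hTB c hc).2.1
    have h4 : 0 < q := by
      rcases Nat.eq_zero_or_pos q with h5 | h5
      · rw [h5] at h2
        omega
      · exact h5
    have h6 : 0 < m c := by
      rcases Nat.eq_zero_or_pos (m c) with h5 | h5
      · rw [h5] at h2
        omega
      · exact h5
    have h7 : 1 * m c ≤ q * m c := Nat.mul_le_mul_right _ h4
    exact ⟨h6, by omega, h4⟩
  have h1 := image_small (fun c => ratios (s c) c) T k (by
    intro S hST hinj
    by_contra hcon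
    push Not at hcon
    obtain ⟨S', hS', hcard⟩ := exists_subset_card_eq (show k + 1 ≤ S.card by omega)
    have hS'T : (S' : Set ℕ) ⊆ T := fun c hc => hST (hS' hc)
    have h2 := card_le_r hBA h q m S' (fun c hc => hpos c (hS'T hc))
      (fun c hc => hm c (hS'T hc)) s
      (fun c hc => hs c (hS'T hc)) (hinj.mono (by exact_mod_cast hS'))
    have h3 : q * ∏ c ∈ S', m c ≤ x ^ (k + 1) := by
      obtain ⟨c, hc⟩ : S'.Nonempty := card_pos.1 (by omega)
      have h4 : q * ∏ c ∈ S', m c = c * ∏ d ∈ S'.erase c, m d := by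
        rw [← mul_prod_erase S' m hc, ← mul_assoc]
        congr 1
        exact ((hm c (hS'T hc)).2).symm
      rw [h4, pow_succ, mul_comm]
      apply Nat.mul_le_mul _ (hTB c (hS'T hc)).2.1
      calc ∏ d ∈ S'.erase c, m d ≤ ∏ d ∈ S'.erase c, x :=
            prod_le_prod' fun d hd => (hmpos d (hS'T (mem_of_mem_erase hd))).2.1
        _ = x ^ k := by rw [prod_const, card_erase_of_mem hc, hcard, Nat.add_sub_cancel]
    have h4 := hr _ h3
    omega)
  obtain ⟨hfin, hcard⟩ := h1
  refine ⟨hfin.toFinset.image least, ?_, ?_⟩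
  · refine card_image_le.trans ?_
    rwa [← Set.ncard_eq_toFinset_card _ hfin]
  · intro c hc
    obtain ⟨u, hu, hl, h2⟩ := least_spec hh (hpos c hc) (hs c hc).1 (hs c hc).2.2
    refine ⟨u, (hs c hc).2.1 u hu, h2, ?_⟩
    rw [mem_image]
    refine ⟨ratios (s c) c, ?_, hl⟩
    rw [Set.Finite.mem_toFinset]
    exact ⟨c, hc, rfl⟩

/-- the finite form for bases -/
theorem basis_form {A B : Set ℕ} (hBA : B ⊆ A) (h0 : 0 ∉ B) (h : ℕ) (hh : 2 ≤ h) (Q : Finset ℕ)
    (hQ : ∀ b ∈ B, ∃ q ∈ Q, ∃ m ∈ mult B, b = q * m)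
    (n₀ : ℕ) (hb : ∀ n : ℕ, n₀ ≤ n →
    ∃ s : Multiset ℕ, Multiset.card s = h ∧ (∀ a ∈ s, a ∈ B) ∧ s.sum = n) (x k : ℕ)
    (hr : ∀ N : ℕ, N ≤ x ^ (k + 1) → r A h N ≤ k) (s : ℝ) (hs0 : 0 < s) (hs1 : s < 1) :
    (x : ℝ) + 1 ≤ n₀ + (n₀ * ((s⁻¹) ^ Nat.log 2 x * ((1 - s)⁻¹) ^ (Q.card * k))) ^ h := by
  classical
  have hP : ∀ q : ℕ, ∃ P : Finset ℚ, P.card ≤ k ∧
      ∀ c ∈ {c | c ∈ B ∧ n₀ ≤ c ∧ c ≤ x ∧ ∃ m ∈ mult B, c = q * m},
        ∃ u ∈ B, 2 * u ≤ c ∧ (u : ℚ) / c ∈ P := fun q =>
    finite_form hBA h0 h hh q x _ (fun c hc => ⟨hc.1, hc.2.2.1, hc.2.2.2⟩)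
      (fun c hc => hb c hc.2.1) k hr
  choose P hPk hP using hP
  have h1 := card_bound (Q.biUnion P) B n₀ x h0 (fun c hc h1 h2 => by
    obtain ⟨q, hq, m, hm, hcm⟩ := hQ c hc
    obtain ⟨u, hu, hu2, hu3⟩ := hP q c ⟨hc, h1, h2, m, hm, hcm⟩
    exact ⟨u, hu, hu2, mem_biUnion.2 ⟨q, hq, hu3⟩⟩) s hs0 hs1
  have hcard : (Q.biUnion P).card ≤ Q.card * k := card_biUnion_le_card_mul _ _ _ fun q _ => hPk q
  have hs2 : 1 ≤ (1 - s)⁻¹ := (one_le_inv₀ (by linarith)).2 (by linarith)
  have h2 : (((range (x + 1)).filter (· ∈ B)).card : ℝ) ≤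
      n₀ * ((s⁻¹) ^ Nat.log 2 x * ((1 - s)⁻¹) ^ (Q.card * k)) := by
    refine h1.trans ?_
    have h3 : ((1 - s)⁻¹) ^ (Q.biUnion P).card ≤ ((1 - s)⁻¹) ^ (Q.card * k) :=
      pow_le_pow_right₀ hs2 hcard
    gcongr
  have h3 : (Ico n₀ (x + 1)) ⊆
      (Fintype.piFinset fun _ : Fin h => (range (x + 1)).filter (· ∈ B)).image
        (fun f => ∑ i, f i) := by
    intro n hn
    rw [mem_Ico] at hn
    obtain ⟨s, hs1, hs2, hs3⟩ := hb n hn.1
    obtain ⟨f, hf1, hf2, hf3⟩ := exists_fun hs1 hs3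
    rw [mem_image]
    refine ⟨f, ?_, ?_⟩
    · rw [Fintype.mem_piFinset]
      intro i
      rw [mem_filter, mem_range]
      exact ⟨by have := hf1 i; omega, hs2 _ (hf2 i)⟩
    · rw [← hs3, ← hf3, Multiset.sum_coe, List.sum_ofFn]
  have h4 := (card_le_card h3).trans card_image_le
  rw [Nat.card_Ico, Fintype.card_piFinset_const] at h4
  have h5 : (x : ℝ) + 1 ≤ n₀ + (((range (x + 1)).filter (· ∈ B)).card : ℝ) ^ h := by
    have h6 : x + 1 ≤ n₀ + ((range (x + 1)).filter (· ∈ B)).card ^ h := by omega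
    exact_mod_cast h6
  refine h5.trans ?_
  gcongr

/-- `1 - 2 ^ (-1 / (2 h)) ≥ 1 / (4 h)` -/
theorem s_bound (h : ℕ) (hh : 2 ≤ h) :
    (1 - Real.exp (-(Real.log 2 / (2 * h))))⁻¹ ≤ 4 * h := by
  have hhR : (2 : ℝ) ≤ h := by exact_mod_cast hh
  have hl1 : (0.69 : ℝ) < Real.log 2 := by
    have := Real.log_two_gt_d9
    linarith
  have hl2 : Real.log 2 < 0.7 := by
    have := Real.log_two_lt_d9
    linarith
  set z := Real.log 2 / (2 * h) with hz
  have hz0 : 0 < z := by positivity
  have hz1 : z ≤ 0.175 := by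
    rw [hz, div_le_iff₀ (by positivity)]
    nlinarith
  have h1 : Real.exp (-z) ≤ 1 - z + z ^ 2 := by
    have h2 := Real.add_one_le_exp z
    have h3 : Real.exp (-z) = (Real.exp z)⁻¹ := Real.exp_neg z
    rw [h3, inv_le_comm₀ (Real.exp_pos _) (by nlinarith)]
    refine le_trans ?_ h2
    rw [inv_le_iff_one_le_mul₀ (by nlinarith)]
    nlinarith [pow_pos hz0 3]
  have h2 : 1 / (4 * (h : ℝ)) ≤ 1 - Real.exp (-z) := by
    have h3 : z - z ^ 2 ≤ 1 - Real.exp (-z) := by linarith
    refine le_trans ?_ h3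
    have h4 : 1 / (4 * (h : ℝ)) = z / (2 * Real.log 2) := by
      rw [hz]
      field_simp
      ring
    rw [h4, div_le_iff₀ (by positivity)]
    nlinarith
  have h3 : (1 - Real.exp (-z))⁻¹ ≤ (1 / (4 * (h : ℝ)))⁻¹ :=
    inv_anti₀ (by positivity) h2
  simpa using h3

/-- Let `B` be a set of positive integers which is an asymptotic basis of order `h ≥ 2` and which is
contained in the union of the sets `q · mult B` with `q` in a finite set `Q`, and let `A ⊇ B`.  Then
for all large `X` there is `N ≤ X` with `r A h N ≥ √(log X / (4 |Q| h log (4 h)))`. -/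
theorem result (h : ℕ) (hh : 2 ≤ h) (A B : Set ℕ) (hBA : B ⊆ A) (h0 : 0 ∉ B)
    (hB : IsBasis B h) (Q : Finset ℕ) (hQ : ∀ b ∈ B, ∃ q ∈ Q, ∃ m ∈ mult B, b = q * m) :
    ∀ᶠ X : ℕ in atTop, ∃ N ≤ X,
      Real.sqrt (Real.log X / (4 * Q.card * h * Real.log (4 * h))) ≤ r A h N := by
  obtain ⟨n₀, hb⟩ := hB
  have hhR : (2 : ℝ) ≤ h := by exact_mod_cast hh
  have hlog : 0 < Real.log (4 * h) := Real.log_pos (by linarith)
  have hl : 0 < Q.card := by
    rw [card_pos]
    obtain ⟨s, hs1, hs2, -⟩ := hb n₀ le_rfl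
    have hs0 : s ≠ 0 := by
      rintro rfl
      simp at hs1
      omega
    obtain ⟨a, ha⟩ := Multiset.exists_mem_of_ne_zero hs0
    obtain ⟨q, hq, -⟩ := hQ a (hs2 a ha)
    exact ⟨q, hq⟩
  have hlR : (0 : ℝ) < Q.card := by exact_mod_cast hl
  set D : ℝ := Q.card * h * Real.log (4 * h) with hD
  have hD0 : 0 < D := by positivity
  have hL : Tendsto (fun X : ℕ => Real.log X) atTop atTop :=
    Real.tendsto_log_atTop.comp tendsto_natCast_atTop_atTop
  have e1 : ∀ᶠ L : ℝ in atTop, 36 * D ≤ L := eventually_ge_atTop _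
  have e2 : ∀ᶠ L : ℝ in atTop,
      ((n₀ : ℝ) + (n₀ : ℝ) ^ h) < Real.exp (Real.sqrt (L * D) / 4) := by
    have h1 : Tendsto (fun L : ℝ => Real.exp (Real.sqrt (L * D) / 4)) atTop atTop :=
      Real.tendsto_exp_atTop.comp ((Real.tendsto_sqrt_atTop.comp
        (tendsto_id.atTop_mul_const hD0)).atTop_div_const (by norm_num))
    exact h1.eventually_gt_atTop _
  filter_upwards [hL.eventually (e1.and e2), eventually_ge_atTop 1] with X hX hX1
  obtain ⟨g1, g2⟩ := hX
  by_contra hcon
  push Not at hcon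
  set L := Real.log X with hLdef
  have hL0 : 0 < L := by linarith
  have hzeq : 4 * (Q.card : ℝ) * h * Real.log (4 * h) = 4 * D := by rw [hD]; ring
  rw [hzeq] at hcon
  set z := Real.sqrt (L / (4 * D)) with hz
  set w := Real.sqrt (L * D) with hw
  have hw0 : 0 ≤ w := Real.sqrt_nonneg _
  have hz3 : 3 ≤ z := by
    rw [hz]
    apply Real.le_sqrt_of_sq_le
    rw [le_div_iff₀ (by positivity)]
    linarith
  have hz0 : 0 < z := by linarith
  have hzsq : z ^ 2 = L / (4 * D) := Real.sq_sqrt (by positivity)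
  have hzD : z * D = w / 2 := by
    have h1 : w = 2 * (z * D) := by
      rw [hw]
      rw [show L * D = (2 * (z * D)) ^ 2 by
        rw [mul_pow, mul_pow, hzsq]
        field_simp
        norm_num]
      exact Real.sqrt_sq (by positivity)
    linarith
  set k := ⌊z⌋₊ with hk
  set y := L / (z + 1) with hy
  set x := ⌊Real.exp y⌋₊ with hx
  have hy0 : 0 ≤ y := by positivity
  have hkz : (k : ℝ) ≤ z := Nat.floor_le hz0.le
  have hyw : 3 / 2 * w ≤ y := by
    rw [hy, le_div_iff₀ (by positivity)]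
    have h1 : w * z = L / 2 := by
      have h2 : w = 2 * (z * D) := by linarith
      rw [h2]
      calc 2 * (z * D) * z = 2 * D * z ^ 2 := by ring
        _ = L / 2 := by
          rw [hzsq]
          field_simp
          norm_num
    have h3 : z + 1 ≤ 4 / 3 * z := by linarith
    calc 3 / 2 * w * (z + 1) ≤ 3 / 2 * w * (4 / 3 * z) := by gcongr
      _ = 2 * (w * z) := by ring
      _ = L := by rw [h1]; ring
      _ ≤ L := le_rfl
  have hx1 : 1 ≤ x := by
    rw [hx, Nat.one_le_floor_iff]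
    exact Real.one_le_exp hy0
  have hxe : (x : ℝ) ≤ Real.exp y := Nat.floor_le (Real.exp_pos _).le
  have hXe : Real.exp L = X := Real.exp_log (by exact_mod_cast hX1)
  have hpow : x ^ (k + 1) ≤ X := by
    have h1 : (x : ℝ) ^ (k + 1) ≤ X := by
      calc (x : ℝ) ^ (k + 1) ≤ Real.exp y ^ (k + 1) :=
            pow_le_pow_left₀ (Nat.cast_nonneg _) hxe _
        _ = Real.exp ((k + 1 : ℕ) * y) := (Real.exp_nat_mul _ _).symm
        _ ≤ Real.exp L := by
            apply Real.exp_le_exp.2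
            push_cast
            calc ((k : ℝ) + 1) * y ≤ (z + 1) * y := by gcongr
              _ = L := by
                rw [hy]
                field_simp
              _ ≤ L := le_rfl
        _ = X := hXe
    exact_mod_cast h1
  have hr : ∀ N : ℕ, N ≤ x ^ (k + 1) → r A h N ≤ k := by
    intro N hN
    rw [hk]
    apply Nat.le_floor
    exact (hcon N (hN.trans hpow)).le
  set s := Real.exp (-(Real.log 2 / (2 * h))) with hs
  have hl2 : 0 < Real.log 2 := Real.log_pos (by norm_num)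
  have hs0 : 0 < s := Real.exp_pos _
  have hs1 : s < 1 := by
    rw [hs, Real.exp_lt_one_iff]
    have : 0 < Real.log 2 / (2 * h) := by positivity
    linarith
  have hs2 : (1 - s)⁻¹ ≤ 4 * h := s_bound h hh
  have hs3 : 0 ≤ (1 - s)⁻¹ := inv_nonneg.2 (by linarith)
  have hmain := basis_form hBA h0 h hh Q hQ n₀ hb x k hr s hs0 hs1
  have hM : (Nat.log 2 x : ℝ) * Real.log 2 ≤ y := by
    have h1 : (2 : ℝ) ^ Nat.log 2 x ≤ Real.exp y := by
      refine le_trans ?_ hxe
      exact_mod_cast Nat.pow_log_le_self 2 (by omega)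
    have := Real.log_le_log (by positivity) h1
    rwa [Real.log_pow, Real.log_exp] at this
  have h1 : ((s⁻¹) ^ Nat.log 2 x) ^ h ≤ Real.exp (y / 2) := by
    have h2 : s⁻¹ = Real.exp (Real.log 2 / (2 * h)) := by
      rw [hs, Real.exp_neg, inv_inv]
    rw [h2, ← Real.exp_nat_mul, ← Real.exp_nat_mul]
    apply Real.exp_le_exp.2
    have h3 : (h : ℝ) * (Nat.log 2 x * (Real.log 2 / (2 * h))) =
        (Nat.log 2 x * Real.log 2) / 2 := by
      field_simp
    rw [h3]
    linarith
  have h2 : (((1 - s)⁻¹) ^ (Q.card * k)) ^ h ≤ Real.exp (w / 2) := by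
    calc (((1 - s)⁻¹) ^ (Q.card * k)) ^ h ≤ ((4 * (h : ℝ)) ^ (Q.card * k)) ^ h := by gcongr
      _ = Real.exp (Real.log (4 * h)) ^ (Q.card * k * h) := by
          rw [← pow_mul, Real.exp_log (by positivity)]
      _ = Real.exp ((Q.card * k * h : ℕ) * Real.log (4 * h)) := (Real.exp_nat_mul _ _).symm
      _ ≤ Real.exp (w / 2) := by
          apply Real.exp_le_exp.2
          rw [← hzD, hD]
          push_cast
          calc (Q.card : ℝ) * k * h * Real.log (4 * h)
              = k * (Q.card * h * Real.log (4 * h)) := by ring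
            _ ≤ z * (Q.card * h * Real.log (4 * h)) := by gcongr
  have h3 : (x : ℝ) + 1 ≤ ((n₀ : ℝ) + n₀ ^ h) * (Real.exp (y / 2) * Real.exp (w / 2)) := by
    have h4 : (1 : ℝ) ≤ Real.exp (y / 2) * Real.exp (w / 2) := by
      rw [← Real.exp_add]
      exact Real.one_le_exp (by positivity)
    have h5 : ((n₀ : ℝ) * ((s⁻¹) ^ Nat.log 2 x * ((1 - s)⁻¹) ^ (Q.card * k))) ^ h ≤
        (n₀ : ℝ) ^ h * (Real.exp (y / 2) * Real.exp (w / 2)) := by
      rw [mul_pow, mul_pow]
      gcongr
    have h6 : (n₀ : ℝ) ≤ n₀ * (Real.exp (y / 2) * Real.exp (w / 2)) :=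
      le_mul_of_one_le_right (Nat.cast_nonneg _) h4
    rw [add_mul]
    linarith
  have h4 : Real.exp y ≤ (x : ℝ) + 1 := (Nat.lt_floor_add_one _).le
  have h5 : Real.exp y = Real.exp (y / 2) * Real.exp (w / 2) * Real.exp (y / 2 - w / 2) := by
    rw [← Real.exp_add, ← Real.exp_add]
    congr 1
    ring
  have h6 : Real.exp (y / 2) * Real.exp (w / 2) * Real.exp (y / 2 - w / 2) ≤
      Real.exp (y / 2) * Real.exp (w / 2) * ((n₀ : ℝ) + n₀ ^ h) := by
    rw [← h5]
    calc Real.exp y ≤ (x : ℝ) + 1 := h4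
      _ ≤ _ := h3
      _ = _ := mul_comm _ _
  have h7 : Real.exp (y / 2 - w / 2) ≤ (n₀ : ℝ) + n₀ ^ h :=
    le_of_mul_le_mul_left h6 (mul_pos (Real.exp_pos _) (Real.exp_pos _))
  have h8 : Real.exp (w / 4) ≤ Real.exp (y / 2 - w / 2) := by
    apply Real.exp_le_exp.2
    linarith
  linarith

end Pool.Agent.Results.MP_d5a1e1_nt.MultiplierBound
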